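import Pool.Agent.Work.MP_122049_pr.Main

open Pool.Agent.Work.MP_122049_pr

namespace Pool.Agent.Results.MP_122049_pr.NotLogConcave

/-- For the alphabet size `k = 2 ^ 16` and the length `n = 2 ^ 39`, the law of the length of a
longest common subsequence of two independent uniform random words is not log-concave. -/
theorem result :
    ∃ i : ℕ, prob (2 ^ 16) (2 ^ 39) (i + 1) ^ 2 <
      prob (2 ^ 16) (2 ^ 39) i * prob (2 ^ 16) (2 ^ 39) (i + 2) :=
  main _ _ rfl rfl

end Pool.Agent.Results.MP_122049_pr.NotLogConcave
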